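import Pool.Agent.K3h26.R6.Stm

/-!
# Project R6, brick FP: one point for every choice of signs
-/

set_option autoImplicit false
set_option linter.all false

namespace Pool.Agent.K3h73.R6

open Pool.Agent.K3h26.R6

theorem exists_kappa (η : ℝ) (hη : 0 < η) : ∃ κ : ℝ, 0 < κ ∧ κ < 1 ∧
    ∀ x : ℝ, 0 ≤ x → x ≤ 2 → 2 * η ≤ |x - 1| → x ≤ κ * Real.exp (x - 1) := by
  obtain ⟨K, hK⟩ : ∃ K : Set ℝ, K = Set.Icc (0 : ℝ) 2 ∩ {x | 2 * η ≤ |x - 1|} := ⟨_, rfl⟩
  have hKc : IsCompact K := by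
    rw [hK]
    refine isCompact_Icc.inter_right ?_
    exact isClosed_le continuous_const (by fun_prop)
  have hconv : ∀ (x κ : ℝ), x * Real.exp (1 - x) ≤ κ → x ≤ κ * Real.exp (x - 1) := by
    intro x κ h
    have h1 : x * Real.exp (1 - x) * Real.exp (x - 1) = x := by
      rw [mul_assoc, ← Real.exp_add]
      have h2 : (1 - x + (x - 1) : ℝ) = 0 := by ring
      rw [h2, Real.exp_zero, mul_one]
    calc x = x * Real.exp (1 - x) * Real.exp (x - 1) := h1.symm
      _ ≤ κ * Real.exp (x - 1) := mul_le_mul_of_nonneg_right h (Real.exp_pos _).le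
  by_cases hne : K.Nonempty
  · obtain ⟨x₀, hx₀, hmax⟩ := hKc.exists_isMaxOn hne
      (f := fun x : ℝ => x * Real.exp (1 - x)) (by fun_prop)
    have h1 : x₀ * Real.exp (1 - x₀) < 1 := by
      rw [hK] at hx₀
      have h2 : x₀ - 1 ≠ 0 := by
        intro h
        have h3 := hx₀.2
        rw [Set.mem_setOf_eq, h, abs_zero] at h3
        linarith
      have h3 := Real.add_one_lt_exp h2
      rw [sub_add_cancel] at h3
      calc x₀ * Real.exp (1 - x₀) < Real.exp (x₀ - 1) * Real.exp (1 - x₀) :=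
            mul_lt_mul_of_pos_right h3 (Real.exp_pos _)
        _ = 1 := by
            rw [← Real.exp_add]
            have h4 : (x₀ - 1 + (1 - x₀) : ℝ) = 0 := by ring
            rw [h4, Real.exp_zero]
    refine ⟨max (x₀ * Real.exp (1 - x₀)) (1 / 2), lt_max_of_lt_right (by norm_num),
      max_lt h1 (by norm_num), fun x hx0 hx2 hx => hconv x _ ?_⟩
    have h2 : x ∈ K := by
      rw [hK]
      exact ⟨⟨hx0, hx2⟩, hx⟩
    exact le_trans (hmax h2) (le_max_left _ _)
  · refine ⟨1 / 2, by norm_num, by norm_num, fun x hx0 hx2 hx => ?_⟩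
    exfalso
    apply hne
    rw [hK]
    exact ⟨x, ⟨hx0, hx2⟩, hx⟩

theorem prod_exp {ι : Type} [Fintype ι] (n : ℝ) (hn : n = Fintype.card ι) (t k : ι → ℝ)
    (ht : ∀ l, 0 ≤ t l) (hk : ∀ l, 0 ≤ k l) (h : ∀ l, 2 * t l ≤ k l * Real.exp (2 * t l - 1)) :
    (∏ l, (2 * t l)) * ((n + 1) - 2 * ∑ l, t l) ≤ ∏ l, k l := by
  have hP : 0 ≤ ∏ l, k l := Finset.prod_nonneg fun l _ => hk l
  have hT : 0 ≤ ∏ l, (2 * t l) := Finset.prod_nonneg fun l _ => by linarith [ht l]
  rcases le_or_gt ((n + 1) - 2 * ∑ l, t l) 0 with h0 | h0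
  · exact le_trans (mul_nonpos_of_nonneg_of_nonpos hT h0) hP
  · have h1 : ∏ l, (2 * t l) ≤ ∏ l, (k l * Real.exp (2 * t l - 1)) :=
      Finset.prod_le_prod (fun l _ => by linarith [ht l]) fun l _ => h l
    have h5 : ∏ l, (k l * Real.exp (2 * t l - 1)) =
        (∏ l, k l) * Real.exp (∑ l, (2 * t l - 1)) := by
      rw [Finset.prod_mul_distrib, ← Real.exp_sum]
    rw [h5] at h1
    have h2 := Real.add_one_le_exp ((n + 1) - 2 * ∑ l, t l - 1)
    rw [sub_add_cancel] at h2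
    have h3 : ∑ l, (2 * t l - 1) = 2 * ∑ l, t l - n := by
      rw [Finset.sum_sub_distrib, ← Finset.mul_sum, Finset.sum_const, Finset.card_univ, hn,
        nsmul_eq_mul, mul_one]
    rw [h3] at h1
    calc (∏ l, (2 * t l)) * ((n + 1) - 2 * ∑ l, t l)
        ≤ ((∏ l, k l) * Real.exp (2 * ∑ l, t l - n)) * Real.exp ((n + 1) - 2 * ∑ l, t l - 1) :=
          mul_le_mul h1 h2 h0.le (mul_nonneg hP (Real.exp_pos _).le)
      _ = ∏ l, k l := by
          rw [mul_assoc, ← Real.exp_add]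
          have h4 : (2 * ∑ l, t l - n + ((n + 1) - 2 * ∑ l, t l - 1) : ℝ) = 0 := by ring
          rw [h4, Real.exp_zero, mul_one]

variable {p : ℕ}

/-- the sign cell -/
noncomputable def cell (v : Fin (p + 5) → ℝ) : Fin (p + 2) → Prop := fun l => 0 ≤ yy v l

/-- the function `phi` -/
noncomputable def phi (v : Fin (p + 5) → ℝ) : ℝ :=
  (∏ l, (1 - |yy v l|)) * (((p : ℝ) + 3) / 2 - ∑ l, (1 - |yy v l|))

theorem abs_lt_of {v : Fin (p + 5) → ℝ} (hv : nq v < 1) (l : Fin (p + 2)) : |yy v l| < 1 := by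
  have h : ‖yy v l‖ ≤ ‖yy v‖ := norm_le_pi_norm (yy v) l
  rw [Real.norm_eq_abs] at h
  exact lt_of_le_of_lt h hv

theorem phi_eq (v : Fin (p + 5) → ℝ) : (2 : ℝ) ^ (p + 3) * phi v =
    (∏ l, (2 * (1 - |yy v l|))) * ((((p : ℝ) + 2) + 1) - 2 * ∑ l, (1 - |yy v l|)) := by
  unfold phi
  rw [Finset.prod_mul_distrib, Finset.prod_const, Finset.card_univ, Fintype.card_fin]
  ring

theorem phi_le {v : Fin (p + 5) → ℝ} (hv : nq v < 1) : (2 : ℝ) ^ (p + 3) * phi v ≤ 1 := by
  rw [phi_eq]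
  have h := prod_exp ((p : ℝ) + 2) (by simp) (fun l => 1 - |yy v l|) (fun _ => 1)
    (fun l => by linarith [abs_lt_of hv l]) (fun _ => zero_le_one) (fun l => by
      rw [one_mul]
      have := Real.add_one_le_exp (2 * (1 - |yy v l|) - 1)
      linarith)
  rw [Finset.prod_const_one] at h
  exact h

theorem phi_le' {v : Fin (p + 5) → ℝ} (hv : nq v < 1) {η κ : ℝ}
    (hκ : 0 ≤ κ) (hk : ∀ x : ℝ, 0 ≤ x → x ≤ 2 → 2 * η ≤ |x - 1| → x ≤ κ * Real.exp (x - 1))
    {l₀ : Fin (p + 2)} (hl : η ≤ |(|yy v l₀|) - 1 / 2|) : (2 : ℝ) ^ (p + 3) * phi v ≤ κ := by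
  classical
  rw [phi_eq]
  have h := prod_exp ((p : ℝ) + 2) (by simp) (fun l => 1 - |yy v l|)
    (fun l => if l = l₀ then κ else 1)
    (fun l => by linarith [abs_lt_of hv l]) (fun l => by split_ifs; exact hκ; exact zero_le_one)
    (fun l => by
      split_ifs with h1
      · subst h1
        refine hk _ (by linarith [abs_lt_of hv l]) (by linarith [abs_nonneg (yy v l)]) ?_
        have h2 : 2 * (1 - |yy v l|) - 1 = -(2 * (|yy v l| - 1 / 2)) := by ring
        rw [h2, abs_neg, abs_mul, abs_two]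
        linarith
      · rw [one_mul]
        have := Real.add_one_le_exp (2 * (1 - |yy v l|) - 1)
        linarith)
  rw [Finset.prod_ite_eq' Finset.univ l₀ (fun _ => κ), if_pos (Finset.mem_univ _)] at h
  exact h

theorem same_sign {a b : ℝ} (ha : |a| < 1) (hb : |b| < 1) (h : (0 ≤ a) = (0 ≤ b)) :
    |a - b| < 1 := by
  rw [abs_lt] at ha hb ⊢
  rcases le_or_gt 0 a with h1 | h1
  · have h2 : 0 ≤ b := h ▸ h1
    constructor <;> linarith
  · have h2 : ¬ 0 ≤ b := by
      rw [← h]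
      exact not_le.mpr h1
    push Not at h2
    constructor <;> linarith

theorem t_FP : S_FP := by
  classical
  intro p η hη
  obtain ⟨κ, hκ0, hκ1, hκ⟩ := exists_kappa η hη
  obtain ⟨N, hN⟩ : ∃ N : ℝ, N = 2 ^ (p + 2) := ⟨_, rfl⟩
  have hN0 : 0 < N := by rw [hN]; positivity
  have hq : (0 : ℝ) < (p : ℝ) + 2 := by positivity
  refine ⟨(1 - κ) / (2 * ((p : ℝ) + 2) * N), by
    have : 0 < 1 - κ := by linarith
    positivity, fun W hW hmy hsep hmu => ?_⟩
  set S : Finset (Fin (p + 5) → ℝ) := hW.toFinset with hS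
  have hmem : ∀ v, v ∈ S ↔ v ∈ W := fun v => hW.mem_toFinset
  have hinj : ∀ v ∈ S, ∀ v' ∈ S, cell v = cell v' → v = v' := by
    intro v hv v' hv' h
    by_contra hne
    have h1 := hmy v ((hmem v).mp hv)
    have h2 := hmy v' ((hmem v').mp hv')
    obtain ⟨l, h3⟩ := hsep v ((hmem v).mp hv) v' ((hmem v').mp hv') hne
    exact absurd h3 (not_le.mpr (same_sign (abs_lt_of h1 l) (abs_lt_of h2 l) (congrFun h l)))
  have h2p : (2 : ℝ) ^ (p + 3) = 2 * N := by rw [hN, pow_succ]; ring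
  have hphi : ∀ v ∈ S, phi v ≤ 1 / (2 * N) := by
    intro v hv
    have h1 := phi_le (hmy v ((hmem v).mp hv))
    rw [h2p] at h1
    rw [le_div_iff₀ (by positivity)]
    linarith
  have hsub : ∀ (S' : Finset (Fin (p + 5) → ℝ)) (Cs : Finset (Fin (p + 2) → Prop)), S' ⊆ S →
      (∀ v ∈ S', cell v ∈ Cs) → ∑ v ∈ S', phi v ≤ Cs.card * (1 / (2 * N)) := by
    intro S' Cs h1 h2
    have h3 : S'.card ≤ Cs.card := Finset.card_le_card_of_injOn cell h2
      fun v hv v' hv' h => hinj v (h1 hv) v' (h1 hv') h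
    have h4 : ∑ v ∈ S', phi v ≤ ∑ _v ∈ S', (1 / (2 * N) : ℝ) :=
      Finset.sum_le_sum fun v hv => hphi v (h1 hv)
    rw [Finset.sum_const, nsmul_eq_mul] at h4
    have h5 : (S'.card : ℝ) ≤ Cs.card := by exact_mod_cast h3
    exact h4.trans (mul_le_mul_of_nonneg_right h5 (by positivity))
  have hcardP : Fintype.card (Fin (p + 2) → Prop) = 2 ^ (p + 2) := by
    rw [Fintype.card_fun, Fintype.card_fin, Fintype.card_prop]
  have hsum : ∑ᶠ v ∈ W, mu v * sy v = (∑ v ∈ S, phi v + ((p : ℝ) + 1) / 2) / ((p : ℝ) + 2) := by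
    rw [finsum_mem_eq_finite_toFinset_sum _ hW] at hmu ⊢
    have h1 : ∀ v ∈ hW.toFinset, mu v * sy v =
        (phi v + ((p : ℝ) + 1) / 2 * mu v) / ((p : ℝ) + 2) := by
      intro v _
      unfold mu sy phi
      have h2 : ∑ l, (1 - |yy v l|) = ((p : ℝ) + 2) - ∑ l, |yy v l| := by
        rw [Finset.sum_sub_distrib, Finset.sum_const, Finset.card_univ, Fintype.card_fin,
          nsmul_eq_mul]
        push_cast
        ring
      rw [h2]
      field_simp
      ring
    rw [Finset.sum_congr rfl h1, ← Finset.sum_div, Finset.sum_add_distrib, ← Finset.mul_sum, hmu]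
    rw [mul_one]
  have hall : ∑ v ∈ S, phi v ≤ 1 / 2 := by
    have h1 := hsub S Finset.univ (Finset.Subset.refl _) fun v _ => Finset.mem_univ _
    rw [Finset.card_univ, hcardP] at h1
    push_cast at h1
    rw [← hN] at h1
    have h2 : N * (1 / (2 * N)) = 1 / 2 := by field_simp
    rw [h2] at h1
    exact h1
  constructor
  · rw [hsum, div_le_iff₀ hq]
    linarith
  intro hlow σ hσ
  rw [hsum, le_div_iff₀ hq] at hlow
  set cl : Fin (p + 2) → Prop := fun l => σ l = 1 with hcl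
  have hsplit := Finset.sum_filter_add_sum_filter_not S (fun v => cell v = cl) phi
  have hrest : ∑ v ∈ S.filter (fun v => ¬ cell v = cl), phi v ≤ 1 / 2 - 1 / (2 * N) := by
    have h1 := hsub (S.filter fun v => ¬ cell v = cl) (Finset.univ.erase cl)
      (Finset.filter_subset _ _) fun v hv =>
        Finset.mem_erase.mpr ⟨(Finset.mem_filter.mp hv).2, Finset.mem_univ _⟩
    rw [Finset.card_erase_of_mem (Finset.mem_univ _), Finset.card_univ, hcardP,
      Nat.cast_sub Nat.one_le_two_pow] at h1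
    push_cast at h1
    rw [← hN] at h1
    have h2 : (N - 1) * (1 / (2 * N)) = 1 / 2 - 1 / (2 * N) := by field_simp
    rw [h2] at h1
    exact h1
  have hδ : ((p : ℝ) + 2) * ((1 - κ) / (2 * ((p : ℝ) + 2) * N)) = (1 - κ) / (2 * N) := by
    field_simp
  have hpos : κ / (2 * N) < ∑ v ∈ S.filter (fun v => cell v = cl), phi v := by
    have h1 : (1 - (1 - κ) / (2 * ((p : ℝ) + 2) * N)) / 2 * ((p : ℝ) + 2) =
        ((p : ℝ) + 2) / 2 - (1 - κ) / (2 * N) / 2 := by
      rw [← hδ]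
      ring
    rw [h1] at hlow
    have h2 : (1 - κ) / (2 * N) = 1 / (2 * N) - κ / (2 * N) := by rw [sub_div]
    have h3 : 0 < (1 - κ) / (2 * N) := div_pos (by linarith) (by positivity)
    linarith
  have hne : (S.filter fun v => cell v = cl).Nonempty := by
    rw [Finset.nonempty_iff_ne_empty]
    intro h
    rw [h, Finset.sum_empty] at hpos
    have : 0 < κ / (2 * N) := by positivity
    linarith
  obtain ⟨v, hv⟩ := hne
  have hvS := (Finset.mem_filter.mp hv).1
  have hvc := (Finset.mem_filter.mp hv).2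
  have hsing : S.filter (fun v => cell v = cl) = {v} := by
    refine Finset.eq_singleton_iff_unique_mem.mpr ⟨hv, fun w hw => ?_⟩
    exact hinj w (Finset.mem_filter.mp hw).1 v hvS
      ((Finset.mem_filter.mp hw).2.trans hvc.symm)
  rw [hsing, Finset.sum_singleton] at hpos
  have hmv := hmy v ((hmem v).mp hvS)
  refine ⟨v, (hmem v).mp hvS, fun l => ?_⟩
  have habs : |yy v l - σ l / 2| = |(|yy v l|) - 1 / 2| := by
    have h : (0 ≤ yy v l) = (σ l = 1) := congrFun hvc l
    rcases hσ l with hr | hr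
    · have h2 : 0 ≤ yy v l := h ▸ hr
      rw [abs_of_nonneg h2, hr]
    · have h2 : ¬ 0 ≤ yy v l := by
        rw [h, hr]
        norm_num
      rw [abs_of_neg (not_le.mp h2), hr, ← abs_neg]
      congr 1
      ring
  rw [habs]
  by_contra hcon
  push Not at hcon
  have h1 := phi_le' hmv hκ0.le hκ hcon.le
  rw [h2p] at h1
  rw [div_lt_iff₀ (by positivity)] at hpos
  linarith

end Pool.Agent.K3h73.R6
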